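import Mathlib
import Pool.Agent.MP_a59382_lc.Mg.Main

set_option autoImplicit false

namespace Pool.Agent.MP_a59382_lc.Old.NoCubicDefinition

open Pool.Agent.MP_a59382_lc

/-- In no number field is the pole relation defined by a finite disjunction of existentially
quantified polynomial equations of degree at most three jointly in the first free variable and
the quantified variables (the degree in the second free variable is arbitrary). -/
theorem result :
    ∀ (K : Type) [Field K] [NumberField K] (m n : ℕ)
      (f : Fin m → MvPolynomial (Fin 2 ⊕ Fin n) K),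
      (∀ j, MvPolynomial.weightedTotalDegree (Sum.elim ![1, 0] fun _ => (1 : ℕ)) (f j) ≤ 3) →
      ¬ ∀ a b : K,
        (∃ (j : Fin m) (z : Fin n → K), MvPolynomial.eval (Sum.elim ![a, b] z) (f j) = 0) ↔
          ∀ v : IsDedekindDomain.HeightOneSpectrum (NumberField.RingOfIntegers K),
            (∃ p : ℕ, p.Prime ∧ p % 4 = 1 ∧
                ((p : NumberField.RingOfIntegers K) ∈ v.asIdeal)) →
              1 < v.valuation K a → 1 < v.valuation K b := by
  intro K _ _ m n f hf h
  have h1 : ∀ j, Pool.Agent.MP_a59382_lc.Small {a : K | ∃ z : Fin n → K,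
      MvPolynomial.eval (Sum.elim ![a, 0] z) (f j) = 0} := by
    intro j
    refine small_poly (f j) (hf j) fun a z hz => pInt_of_valuation fun v hv => ?_
    by_contra hlt
    have := (h a 0).1 ⟨j, z, hz⟩ v hv (not_le.1 hlt)
    simp at this
  obtain ⟨k, hk⟩ := (Small.iUnion Finset.univ _ h1).exists_int
  apply hk
  obtain ⟨j, z, hz⟩ := (h k 0).2 fun v _ hlt => by
    have e : (k : K) = algebraMap (NumberField.RingOfIntegers K) K k :=
      (map_intCast (algebraMap (NumberField.RingOfIntegers K) K) k).symm
    rw [e] at hlt
    exact absurd hlt (not_lt.2 (v.valuation_le_one (K := K) _))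
  simp only [Set.mem_iUnion]
  exact ⟨j, Finset.mem_univ _, z, hz⟩

end Pool.Agent.MP_a59382_lc.Old.NoCubicDefinition
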